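import Pool.Agent.helper5.IH.Spec

set_option autoImplicit false

namespace Pool.Agent.IH
open Finset CT SYM

private theorem HPS_aux {V : Type} (H : SimpleGraph V) (v x y : V) (hx : x ≠ v)
    (σ : Equiv.Perm V)
    (h : σ v = v ∧ σ y = x ∧ (∀ w, w ≠ v → w ≠ y → H.Adj w (σ w)) ∧
      ∀ w, w ≠ v → σ.SameCycle y w) :
    σ⁻¹ v = v ∧ σ⁻¹ x = y ∧ (∀ w, w ≠ v → w ≠ x → H.Adj w (σ⁻¹ w)) ∧
      ∀ w, w ≠ v → (σ⁻¹).SameCycle x w := by
  obtain ⟨h1, h2, h3, h4⟩ := h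
  refine ⟨?_, ?_, ?_, ?_⟩
  · rw [Equiv.Perm.inv_eq_iff_eq]; exact h1.symm
  · rw [Equiv.Perm.inv_eq_iff_eq]; exact h2.symm
  · intro w hwv hwx
    have ha : σ (σ⁻¹ w) = w := by simp
    have hb : σ⁻¹ w ≠ v := by
      intro hc
      rw [hc, h1] at ha
      exact hwv ha.symm
    have hc : σ⁻¹ w ≠ y := by
      intro hc
      rw [hc, h2] at ha
      exact hwx ha.symm
    have hd := h3 _ hb hc
    rw [ha] at hd
    exact hd.symm
  · intro w hw
    rw [Equiv.Perm.sameCycle_inv]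
    exact (h4 x hx).symm.trans (h4 w hw)

theorem HPS : HPS_stmt := by
  intro V _ _ H v x y hx hy
  unfold Hp
  refine Nat.card_congr ((Equiv.inv (Equiv.Perm V)).subtypeEquiv ?_)
  intro σ
  constructor
  · intro h
    exact HPS_aux H v x y hx σ h
  · intro h
    have := HPS_aux H v y x hy _ h
    simpa using this

end Pool.Agent.IH
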